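import Pool.Agent.H16.GA.DTR

/-!
Row PIG of the board ga: a circle on which a polynomial is not small.
-/

set_option autoImplicit false

namespace Pool.Agent.H16.GA

open MeasureTheory Pool.Agent.H34.GM Pool.Agent.H34.GZ Pool.Agent.H34.GU Pool.Agent.H34.GA

theorem pf_PIG : T_PIG := by
  intro n ρ ε hn hε
  have hnR : (1 : ℝ) ≤ n := by exact_mod_cast hn
  have hn0 : (0 : ℝ) < n := by linarith
  obtain ⟨R, hR⟩ : ∃ R : Fin (n + 1) → ℝ, R = fun j : Fin (n + 1) =>
    ε + ε / n * ((j : ℕ) : ℝ) := ⟨_, rfl⟩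
  have hfree : ∃ j : Fin (n + 1), ∀ k, ε / (4 * n) ≤ |R j - ‖ρ k‖| := by
    by_contra hcon
    push Not at hcon
    choose k hk using hcon
    obtain ⟨i, j, hij, hkk⟩ := Fintype.exists_ne_map_eq_of_card_lt k (by simp)
    have h1 := hk i
    have h2 := hk j
    rw [hkk] at h1
    have h3 : |R i - R j| < ε / (2 * n) := by
      have h0 : R i - R j = (R i - ‖ρ (k j)‖) - (R j - ‖ρ (k j)‖) := by ring
      rw [h0]
      have h4 := abs_sub (R i - ‖ρ (k j)‖) (R j - ‖ρ (k j)‖)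
      have h5 : ε / (2 * n) = ε / (4 * n) + ε / (4 * n) := by
        field_simp
        ring
      linarith
    have h6 : R i - R j = ε / n * (((i : ℕ) : ℝ) - ((j : ℕ) : ℝ)) := by
      rw [hR]
      ring
    have h7 : (1 : ℝ) ≤ |((i : ℕ) : ℝ) - ((j : ℕ) : ℝ)| := by
      have h8 : ((i : ℕ) : ℤ) - ((j : ℕ) : ℤ) ≠ 0 := by
        intro h
        apply hij
        ext
        omega
      have h9 := Int.one_le_abs h8
      exact_mod_cast h9
    rw [h6, abs_mul, abs_of_pos (div_pos hε hn0)] at h3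
    have h10 : ε / n ≤ ε / n * |((i : ℕ) : ℝ) - ((j : ℕ) : ℝ)| :=
      le_mul_of_one_le_right (div_pos hε hn0).le h7
    have h11 : ε / (2 * n) ≤ ε / n :=
      div_le_div_of_nonneg_left hε.le hn0 (by linarith)
    linarith
  obtain ⟨j, hj⟩ := hfree
  have hj0 : (0 : ℝ) ≤ ((j : ℕ) : ℝ) := by positivity
  have hjn : ((j : ℕ) : ℝ) ≤ n := by
    have := j.2
    exact_mod_cast (by omega : (j : ℕ) ≤ n)
  refine ⟨R j, ?_, ?_, ?_⟩
  · rw [hR]
    have h1 : 0 ≤ ε / n * ((j : ℕ) : ℝ) := mul_nonneg (div_pos hε hn0).le hj0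
    show ε ≤ ε + ε / n * ((j : ℕ) : ℝ)
    linarith
  · rw [hR]
    have h1 : ε / n * ((j : ℕ) : ℝ) ≤ ε / n * n :=
      mul_le_mul_of_nonneg_left hjn (div_pos hε hn0).le
    have h2 : ε / n * n = ε := by field_simp
    show ε + ε / n * ((j : ℕ) : ℝ) ≤ 2 * ε
    linarith
  · intro w hw
    have h1 : (ε / (4 * n)) ^ n = ∏ _k : Fin n, (ε / (4 * n)) := by
      rw [Finset.prod_const, Finset.card_univ, Fintype.card_fin]
    rw [h1]
    refine Finset.prod_le_prod (fun _ _ => by positivity) fun k _ => ?_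
    calc ε / (4 * n) ≤ |R j - ‖ρ k‖| := hj k
      _ = |‖w‖ - ‖ρ k‖| := by rw [hw]
      _ ≤ ‖w - ρ k‖ := abs_norm_sub_norm_le w (ρ k)

/-- a polynomial on a circle -/
lemma pol_low (n : ℕ) (c : ℕ → ℂ) (ε : ℝ) (hn : 1 ≤ n) (hε : 0 < ε) (hc : c n ≠ 0) :
    ∃ R : ℝ, ε ≤ R ∧ R ≤ 2 * ε ∧ ∀ w : ℂ, ‖w‖ = R →
      ‖c n‖ * (ε / (4 * n)) ^ n ≤ ‖∑ k ∈ Finset.range (n + 1), c k * w ^ k‖ := by
  obtain ⟨p, hp⟩ : ∃ p : Polynomial ℂ, p = ∑ k ∈ Finset.range (n + 1),
      Polynomial.C (c k) * Polynomial.X ^ k := ⟨_, rfl⟩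
  have hev : ∀ w, p.eval w = ∑ k ∈ Finset.range (n + 1), c k * w ^ k := by
    intro w
    rw [hp, Polynomial.eval_finsetSum]
    simp
  have hco : p.coeff n = c n := by
    rw [hp, Polynomial.finsetSum_coeff]
    simp [Polynomial.coeff_C_mul, Polynomial.coeff_X_pow]
  have hdeg : p.natDegree = n := by
    apply le_antisymm
    · rw [hp]
      apply Polynomial.natDegree_sum_le_of_forall_le
      intro k hk
      refine (Polynomial.natDegree_C_mul_X_pow_le _ _).trans ?_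
      have := Finset.mem_range.1 hk
      omega
    · exact Polynomial.le_natDegree_of_ne_zero (by rw [hco]; exact hc)
  have hsp := IsAlgClosed.splits p
  have hlc : p.leadingCoeff = c n := by
    unfold Polynomial.leadingCoeff
    rw [hdeg, hco]
  have hlen : p.roots.toList.length = n := by
    rw [Multiset.length_toList, ← hsp.natDegree_eq_card_roots, hdeg]
  have hprod : ∀ w, p.eval w = c n * ∏ k : Fin n, (w - p.roots.toList.get (Fin.cast hlen.symm k)) := by
    intro w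
    rw [hsp.eval_eq_prod_roots w, hlc]
    congr 1
    have h1 : (p.roots.map (fun a => w - a)).prod = (p.roots.toList.map (fun a => w - a)).prod := by
      conv_lhs => rw [← Multiset.coe_toList p.roots]
      rw [Multiset.map_coe, Multiset.prod_coe]
    rw [h1]
    have h2 := Fin.prod_univ_fun_getElem p.roots.toList (fun a => w - a)
    rw [← h2]
    exact (Fintype.prod_equiv (finCongr hlen.symm) _ _ fun k => rfl).symm
  obtain ⟨R, h1, h2, h3⟩ := pf_PIG n (fun k => p.roots.toList.get (Fin.cast hlen.symm k)) ε hn hε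
  refine ⟨R, h1, h2, fun w hw => ?_⟩
  rw [← hev w, hprod w, norm_mul, norm_prod]
  exact mul_le_mul_of_nonneg_left (h3 w hw) (norm_nonneg _)

end Pool.Agent.H16.GA
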