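import Pool.Agent.H16.GA.DTR
import Pool.Agent.H16.GZ.Col0

/-!
Row ZLC of the board ga: the bump functions, the logarithm of the determinant, change of variables.
-/

set_option autoImplicit false

namespace Pool.Agent.H16.GA

open MeasureTheory Pool.Agent.H34.GM Pool.Agent.H34.GZ Pool.Agent.H34.GU Pool.Agent.H34.GA

/-- the unit matrix as a vector -/
def e1 (m : ℕ) : V m := fun i j => (1 : Mat m) i j

lemma dD_const {m : ℕ} {ψ : Mat m → ℂ} (h : ContDiff ℝ ((⊤ : ℕ∞) : WithTop ℕ∞)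
    (fun z : V m => ψ (mt z))) (c : ℂ) (z : Mat m) :
    dD (fun z => c * ψ z) z = c * dD ψ z := by
  unfold dD
  rw [Finset.mul_sum]
  refine Finset.sum_congr rfl fun σ _ => ?_
  have h1 : iteratedFDeriv ℝ m (fun w : V m => c * ψ (mt w)) (fun i j => z i j) =
      c • iteratedFDeriv ℝ m (fun w : V m => ψ (mt w)) (fun i j => z i j) :=
    iteratedFDeriv_const_smul_apply (a := c) (f := fun w : V m => ψ (mt w))
      ((h.of_le (by exact_mod_cast le_top)).contDiffAt)
  rw [h1, ContinuousMultilinearMap.smul_apply, smul_eq_mul]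
  ring

lemma dD_aff {m : ℕ} {φ : Mat m → ℂ} (h : ContDiff ℝ ((⊤ : ℕ∞) : WithTop ℕ∞)
    (fun z : V m => φ (mt z))) (a : ℝ) (z : Mat m) :
    dD (fun z : Mat m => φ (a • (z - 1))) z = (a : ℂ) ^ m * dD φ (a • (z - 1)) := by
  unfold dD
  rw [Finset.mul_sum]
  refine Finset.sum_congr rfl fun σ _ => ?_
  have key : ∀ x : V m, iteratedFDeriv ℝ m (fun w : V m => φ (a • (mt w - 1))) x =
      a ^ m • iteratedFDeriv ℝ m (fun w : V m => φ (mt w)) (a • (x - e1 m)) := by
    intro x
    have h3 := iteratedFDeriv_comp_const_smul (i := m) a (f := fun w : V m => φ (mt w))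
      (h.of_le (by exact_mod_cast le_top))
    exact (iteratedFDeriv_comp_sub (𝕜 := ℝ) (f := fun y : V m => (fun w : V m => φ (mt w)) (a • y))
      m (e1 m) x).trans (congrFun h3 (x - e1 m))
  have h1 : iteratedFDeriv ℝ m (fun w : V m => φ (a • (mt w - 1))) (fun i j => z i j) =
      a ^ m • iteratedFDeriv ℝ m (fun w : V m => φ (mt w)) (fun i j => (a • (z - 1)) i j) :=
    key (fun i j => z i j)
  rw [h1, ContinuousMultilinearMap.smul_apply, Complex.real_smul]
  push_cast
  ring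

lemma sm_aff {m : ℕ} {φ : Mat m → ℂ} (h : ContDiff ℝ ((⊤ : ℕ∞) : WithTop ℕ∞)
    (fun z : V m => φ (mt z))) (a : ℝ) :
    ContDiff ℝ ((⊤ : ℕ∞) : WithTop ℕ∞) (fun z : V m => φ (a • (mt z - 1))) := by
  have h2 : (fun w : V m => φ (a • (mt w - 1))) =
      (fun w : V m => φ (mt w)) ∘ (fun w : V m => a • (w - e1 m)) := rfl
  rw [h2]
  exact h.comp ((contDiff_id.sub contDiff_const).const_smul a)

lemma dD_aff_iter {m : ℕ} {φ : Mat m → ℂ} (h : SC (fun z : V m => φ (mt z))) (a : ℝ) (l : ℕ) :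
    dD^[l] (fun z : Mat m => φ (a • (z - 1))) =
      fun z : Mat m => (a : ℂ) ^ (m * l) * (dD^[l] φ) (a • (z - 1)) := by
  induction l with
  | zero =>
    funext z
    simp
  | succ l ih =>
    rw [Function.iterate_succ_apply', ih]
    funext z
    have h1 := (dD_iter_SC h l).smooth
    rw [dD_const (ψ := fun z : Mat m => (dD^[l] φ) (a • (z - 1))) (sm_aff h1 a),
      dD_aff h1 a z, Function.iterate_succ_apply', Nat.mul_succ, pow_add]
    ring

/-- the profile on the matrices -/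
noncomputable def ph {m : ℕ} (χ : ℝ → ℝ) (z : Mat m) : ℂ := (χ (∑ i, ∑ j, (z i j) ^ 2) : ℝ)

lemma bi_eq {m : ℕ} (χ : ℝ → ℝ) (δ : ℝ) :
    bi m χ δ = fun z : Mat m => ph χ (δ⁻¹ • (z - 1)) := by
  funext z
  unfold bi ph
  have h1 : (∑ i, ∑ j, ((z - 1) i j) ^ 2) / δ ^ 2 = ∑ i, ∑ j, ((δ⁻¹ • (z - 1)) i j) ^ 2 := by
    rw [Finset.sum_div]
    refine Finset.sum_congr rfl fun i _ => ?_
    rw [Finset.sum_div]
    refine Finset.sum_congr rfl fun j _ => ?_
    rw [Matrix.smul_apply, smul_eq_mul, mul_pow, inv_pow]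
    field_simp
  rw [h1]

lemma ph_supp {m : ℕ} {χ : ℝ → ℝ} (hχ : Prof χ) (x : V m) (hx : 1 < ‖x‖) : ph χ (mt x) = 0 := by
  unfold ph
  have h1 : 1 ≤ |∑ i, ∑ j, ((mt x) i j) ^ 2| := by
    have h0 : 0 ≤ ∑ i, ∑ j, ((mt x) i j) ^ 2 :=
      Finset.sum_nonneg fun i _ => Finset.sum_nonneg fun j _ => sq_nonneg _
    rw [abs_of_nonneg h0]
    by_contra hcon
    push Not at hcon
    have h2 : ‖x‖ ≤ 1 := by
      rw [pi_norm_le_iff_of_nonneg zero_le_one]
      intro i
      rw [pi_norm_le_iff_of_nonneg zero_le_one]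
      intro j
      rw [Real.norm_eq_abs]
      have h3 : (x i j) ^ 2 ≤ ∑ i, ∑ j, ((mt x) i j) ^ 2 :=
        (Finset.single_le_sum (f := fun j => (x i j) ^ 2) (fun j _ => sq_nonneg _)
          (Finset.mem_univ j)).trans
          (Finset.single_le_sum (f := fun i => ∑ j, (x i j) ^ 2)
            (fun i _ => Finset.sum_nonneg fun j _ => sq_nonneg _) (Finset.mem_univ i))
      have h4 : (x i j) ^ 2 ≤ 1 := by linarith
      exact (sq_le_one_iff_abs_le_one _).1 h4
    linarith
  rw [hχ.supp _ h1, Complex.ofReal_zero]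

lemma ph_SC {m : ℕ} {χ : ℝ → ℝ} (hχ : Prof χ) : SC (fun z : V m => ph χ (mt z)) := by
  refine ⟨?_, ?_⟩
  · have h1 : ContDiff ℝ ((⊤ : ℕ∞) : WithTop ℕ∞) (fun z : V m => ∑ i, ∑ j, (z i j) ^ 2) := by
      refine ContDiff.sum fun i _ => ContDiff.sum fun j _ => ?_
      exact (contDiff_apply_apply ℝ ℝ i j).pow 2
    exact Complex.ofRealCLM.contDiff.comp (hχ.smooth.comp h1)
  · refine HasCompactSupport.intro (isCompact_closedBall (0 : V m) 1) fun x hx => ?_
    apply ph_supp hχ
    rw [Metric.mem_closedBall, dist_zero_right, not_le] at hx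
    exact hx

lemma dD_supp {m : ℕ} {ψ : Mat m → ℂ} (h : ∀ x : V m, 1 < ‖x‖ → ψ (mt x) = 0) :
    ∀ x : V m, 1 < ‖x‖ → dD ψ (mt x) = 0 := by
  intro x hx
  show ∑ σ : Equiv.Perm (Fin m), ((Equiv.Perm.sign σ : ℤ) : ℂ) *
    iteratedFDeriv ℝ m (fun w : V m => ψ (mt w)) x (fun i => ev i (σ i)) = 0
  refine Finset.sum_eq_zero fun σ _ => ?_
  have h1 : (fun w : V m => ψ (mt w)) =ᶠ[nhds x] fun _ => 0 := by
    have h2 : ∀ᶠ y : V m in nhds x, 1 < ‖y‖ := continuous_norm.continuousAt.eventually_const_lt hx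
    exact h2.mono fun y hy => h y hy
  rw [(h1.iteratedFDeriv ℝ m).eq_of_nhds]
  have h3 : iteratedFDeriv ℝ m (fun _ : V m => (0 : ℂ)) x = 0 := by
    have := iteratedFDeriv_fun_zero (𝕜 := ℝ) (E := V m) (F := ℂ) (n := m)
    exact congrFun this x
  rw [h3]
  simp

lemma dD_iter_supp {m : ℕ} {ψ : Mat m → ℂ} (h : ∀ x : V m, 1 < ‖x‖ → ψ (mt x) = 0) (l : ℕ) :
    ∀ x : V m, 1 < ‖x‖ → (dD^[l] ψ) (mt x) = 0 := by
  induction l with
  | zero => exact h
  | succ l ih =>
    rw [Function.iterate_succ_apply']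
    exact dD_supp ih

lemma ph_pos {m : ℕ} {χ : ℝ → ℝ} (hχ : Prof χ) : ∫ x : V m, ph χ (mt x) ≠ 0 := by
  have h1 : ∫ x : V m, ph χ (mt x) = ((∫ x : V m, χ (∑ i, ∑ j, ((mt x) i j) ^ 2) : ℝ) : ℂ) := by
    unfold ph
    exact integral_ofReal
  rw [h1]
  have h2 : 0 < ∫ x : V m, χ (∑ i, ∑ j, ((mt x) i j) ^ 2) := by
    refine Continuous.integral_pos_of_hasCompactSupport_nonneg_nonzero
      (f := fun x : V m => χ (∑ i, ∑ j, ((mt x) i j) ^ 2)) (x := 0) ?_ ?_ ?_ ?_
    · have h3 : Continuous (fun z : V m => ∑ i, ∑ j, (z i j) ^ 2) := by fun_prop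
      exact hχ.smooth.continuous.comp h3
    · refine HasCompactSupport.intro (isCompact_closedBall (0 : V m) 1) fun x hx => ?_
      have h4 := ph_supp (m := m) hχ x (by
        rw [Metric.mem_closedBall, dist_zero_right, not_le] at hx
        exact hx)
      unfold ph at h4
      exact_mod_cast h4
    · intro x
      exact hχ.lo _
    · show χ (∑ i : Fin m, ∑ j : Fin m, ((0 : V m) i j) ^ 2) ≠ 0
      rw [hχ.one _ (by simp)]
      exact one_ne_zero
  exact_mod_cast h2.ne'

/-- the logarithm of the determinant near the unit matrix -/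
lemma log_det (m : ℕ) : HasFDerivAt (fun y : V m => Real.log ((mt (e1 m + y)).det)) (trL m) 0 := by
  have hd : Differentiable ℝ (fun y : V m => (mt (e1 m + y)).det) := by
    simp only [Matrix.det_apply]
    refine Differentiable.fun_sum fun σ _ => ?_
    have h1 : Differentiable ℝ (fun y : V m => ∏ i, (mt (e1 m + y)) (σ i) i) := by
      show Differentiable ℝ (fun y : V m => ∏ i, (e1 m (σ i) i + y (σ i) i))
      fun_prop
    exact h1.const_smul _
  have h0 : (mt (e1 m + 0)).det = 1 := by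
    have h1 : mt (e1 m + 0) = (1 : Mat m) := by
      ext i j
      show e1 m i j + (0 : ℝ) = (1 : Mat m) i j
      unfold e1
      rw [add_zero]
    rw [h1, Matrix.det_one]
  have hf := (hd 0).hasFDerivAt
  have hv : fderiv ℝ (fun y : V m => (mt (e1 m + y)).det) 0 = trL m := by
    ext v
    have hc : HasDerivAt (fun t : ℝ => t • v) v 0 := by
      have := (hasDerivAt_id (0 : ℝ)).smul_const v
      simpa using this
    have hf' : HasFDerivAt (fun y : V m => (mt (e1 m + y)).det)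
        (fderiv ℝ (fun y : V m => (mt (e1 m + y)).det) 0) ((0 : ℝ) • v) := by
      rw [zero_smul]
      exact hf
    have h2 := hf'.comp_hasDerivAt (0 : ℝ) hc
    have h3 : ∀ t : ℝ, (mt (e1 m + t • v)).det = 1 + (mt v).trace * t +
        (Matrix.det (1 + (Polynomial.X : Polynomial ℝ) •
          (mt v).map Polynomial.C)).divX.divX.eval t * t ^ 2 := by
      intro t
      rw [← Matrix.det_one_add_smul]
      rfl
    have h4 : HasDerivAt (fun t : ℝ => 1 + (mt v).trace * t +
        (Matrix.det (1 + (Polynomial.X : Polynomial ℝ) •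
          (mt v).map Polynomial.C)).divX.divX.eval t * t ^ 2) (mt v).trace 0 := by
      have a1 : HasDerivAt (fun t : ℝ => 1 + (mt v).trace * t) ((mt v).trace * 1) 0 :=
        ((hasDerivAt_id (0 : ℝ)).const_mul _).const_add 1
      have a2 := ((Matrix.det (1 + (Polynomial.X : Polynomial ℝ) •
          (mt v).map Polynomial.C)).divX.divX.hasDerivAt (0 : ℝ)).mul
            ((hasDerivAt_id (0 : ℝ)).pow 2)
      have a3 := a1.add a2
      exact a3.congr_deriv (by simp)
    have h5 : ((fun y : V m => (mt (e1 m + y)).det) ∘ fun t : ℝ => t • v) =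
        fun t : ℝ => 1 + (mt v).trace * t + (Matrix.det (1 + (Polynomial.X : Polynomial ℝ) •
          (mt v).map Polynomial.C)).divX.divX.eval t * t ^ 2 := by
      funext t
      exact h3 t
    rw [h5] at h2
    rw [h2.unique h4, trL_apply]
  rw [hv] at hf
  have h6 := hf.log (by rw [h0]; exact one_ne_zero)
  rw [h0, inv_one, one_smul] at h6
  exact h6

lemma log_det_bd (m : ℕ) (η : ℝ) (hη : 0 < η) : ∃ r : ℝ, 0 < r ∧ ∀ (x : V m) (δ : ℝ), ‖x‖ ≤ 1 →
    0 < δ → δ ≤ r → 0 < (mt (e1 m + δ • x)).det ∧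
      |Real.log ((mt (e1 m + δ • x)).det) - δ * trL m x| ≤ η * δ := by
  have h1 := (log_det m).isLittleO
  have h2 := (Asymptotics.isLittleO_iff.1 h1) hη
  have hcont : Continuous (fun y : V m => (mt (e1 m + y)).det) :=
    (Continuous.matrix_det (continuous_id : Continuous (fun z : V m => (mt z : Mat m)))).comp
      (continuous_const.add continuous_id)
  have h0 : (mt (e1 m + 0)).det = 1 := by
    have h1 : mt (e1 m + 0) = (1 : Mat m) := by
      ext i j
      show e1 m i j + (0 : ℝ) = (1 : Mat m) i j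
      unfold e1
      rw [add_zero]
    rw [h1, Matrix.det_one]
  have h3 : ∀ᶠ y : V m in nhds 0, 0 < (mt (e1 m + y)).det :=
    hcont.continuousAt.eventually_const_lt (by
      show 0 < (mt (e1 m + 0)).det
      rw [h0]
      exact one_pos)
  obtain ⟨ρ, hρ, hball⟩ := Metric.eventually_nhds_iff.1 (h2.and h3)
  refine ⟨ρ / 2, by linarith, fun x δ hx hδ hδr => ?_⟩
  have h4 : ‖δ • x‖ ≤ δ := by
    rw [norm_smul, Real.norm_eq_abs, abs_of_pos hδ]
    exact mul_le_of_le_one_right hδ.le hx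
  obtain ⟨h5, h6⟩ := hball (y := δ • x) (by
    rw [dist_zero_right]
    linarith)
  refine ⟨h6, ?_⟩
  rw [h0, Real.log_one, sub_zero, sub_zero, map_smul, smul_eq_mul, Real.norm_eq_abs] at h5
  exact h5.trans (mul_le_mul_of_nonneg_left h4 hη.le)

lemma cov {m : ℕ} (δ : ℝ) (hδ : 0 < δ) (G : V m → ℂ) :
    ∫ z : V m, G z = (δ : ℂ) ^ (m * m) * ∫ x : V m, G (e1 m + δ • x) := by
  have h1 := Measure.integral_comp_smul (volume : Measure (V m)) (fun y => G (e1 m + y)) δ
  have h2 : Module.finrank ℝ (V m) = m * m := by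
    rw [Module.finrank_pi_fintype]
    simp
  rw [h2, integral_add_left_eq_self G (e1 m)] at h1
  rw [h1, abs_of_pos (by positivity), Complex.real_smul]
  have h3 : (δ : ℂ) ≠ 0 := by exact_mod_cast hδ.ne'
  push_cast
  rw [← mul_assoc, mul_inv_cancel₀ (pow_ne_zero _ h3), one_mul]

lemma vol_ac (m : ℕ) : (volume : Measure (V m)) ≪ hm m := by
  unfold hm
  have hc : Continuous fun z : V m => (mt z).det := Continuous.matrix_det continuous_id
  refine withDensity_absolutelyContinuous' ?_ ?_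
  · exact ((hc.abs.pow m).measurable.inv).ennreal_ofReal.aemeasurable
  · filter_upwards [Pool.Agent.H16.GZ.det_ae m] with z hz
    have h1 : 0 < (|(mt z).det| ^ m)⁻¹ := inv_pos.2 (pow_pos (abs_pos.2 hz) m)
    exact (ENNReal.ofReal_pos.2 h1).ne'

lemma f_meas {m : ℕ} {f : Mat m → ℂ} (hf : AEStronglyMeasurable (fun z : V m => f (mt z)) (hm m))
    (δ : ℝ) (hδ : 0 < δ) :
    AEStronglyMeasurable (fun x : V m => f (mt (e1 m + δ • x))) volume := by
  have h1 : AEStronglyMeasurable (fun z : V m => f (mt z)) (volume : Measure (V m)) :=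
    hf.mono_ac (vol_ac m)
  have h2 : Measure.QuasiMeasurePreserving (fun x : V m => e1 m + x) volume volume :=
    (measurePreserving_add_left volume (e1 m)).quasiMeasurePreserving
  have h3 : Measure.QuasiMeasurePreserving (fun x : V m => δ • x) volume volume := by
    refine ⟨measurable_const_smul δ, ?_⟩
    rw [Measure.map_addHaar_smul volume hδ.ne']
    exact Measure.smul_absolutelyContinuous
  have h4 := h1.comp_quasiMeasurePreserving (h2.comp h3)
  exact h4

lemma hm_int {m : ℕ} (G : V m → ℂ) :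
    ∫ z, G z ∂(hm m) = ∫ z : V m, (((|(mt z).det| ^ m)⁻¹ : ℝ) : ℂ) * G z := by
  have hdet : Continuous (fun z : V m => (mt z).det) :=
    Continuous.matrix_det (continuous_id : Continuous (fun z : V m => (mt z : Mat m)))
  have hme : Measurable (fun z : V m => ENNReal.ofReal ((|(mt z).det| ^ m)⁻¹)) :=
    ((hdet.abs.pow m).measurable.inv).ennreal_ofReal
  unfold hm
  rw [integral_withDensity_eq_integral_toReal_smul hme
    (Filter.Eventually.of_forall fun z => ENNReal.ofReal_lt_top)]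
  refine integral_congr_ae (Filter.Eventually.of_forall fun z => ?_)
  show (ENNReal.ofReal ((|(mt z).det| ^ m)⁻¹)).toReal • G z = _
  rw [ENNReal.toReal_ofReal (by positivity), Complex.real_smul]

end Pool.Agent.H16.GA
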