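import Pool.Agent.H16.GA.TargetsF
import Pool.Agent.H16.GA.ZLC
import Pool.Agent.H69.GA.SPX

/-!
Row SPC of the board ga: one value on the critical line, no condition at infinity (after helper69's
row SPX, with the circle of row ZLC and the maximum principle).
-/

set_option autoImplicit false

namespace Pool.Agent.H16.GA

open MeasureTheory Pool.Agent.H34.GM Pool.Agent.H34.GZ Pool.Agent.H34.GU Pool.Agent.H34.GA
  Pool.Agent.H69.GA

theorem pf_SPC (hPRF : T_PRF) (hFR : T_FR1) (hABW : T_ABW) (hDYU : T_DYU) (hPHB : T_PHB)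
    (hCNR : T_CNR) (hCFA : T_CFA) (hCFB : Pool.Agent.H34.GA.T_CFB)
    (hMLZ : T_MLZ) (hFEA : T_FEA) (hSMA : Pool.Agent.H34.GA.T_SMA) (hLMA : T_LMA)
    (hTHK : T_THK) (hSPB : T_SPB) : T_SPC := by
  obtain ⟨χ, hχ⟩ := hPRF
  intro m hm ε J hε hJ
  have hmR : (1 : ℝ) ≤ m := by exact_mod_cast hm
  have hm0 : (0 : ℝ) < m := by linarith
  have hε1 : 0 < ε / 2 := by linarith
  obtain ⟨K, CA, hKb, hKm, hCA, hA⟩ := hABW m hm (ε / 2) J hε1 hJ
  obtain ⟨C0, hC0, hY⟩ := hDYU m hm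
  obtain ⟨CP, cP, AP, hCP, hcP, hP⟩ := hPHB χ hχ m hm (ε / 2) K hε1
  obtain ⟨CN, hCN, hN⟩ := hCNR m hm
  have hCN0 : 0 < CN := by linarith
  set e0 : ℝ := min 1 (ε / 2 / (2 * m)) with he0
  have he0p : 0 < e0 := lt_min one_pos (by positivity)
  have he01 : e0 ≤ 1 := min_le_left _ _
  have he02 : e0 ≤ ε / 2 / (2 * m) := min_le_right _ _
  obtain ⟨cZ, AZ, hcZ, hZ⟩ := pf_ZLC m χ hm hχ (e0 / 2) CN (by positivity) (by linarith) hCN
  refine ⟨2 * (CA * C0) * CP * cZ⁻¹, cZ / 3, AP + AZ, by positivity, by positivity, ?_⟩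
  intro N _ T D hS F lam P hF hn hLip L hL hLW t δ htP hδ0 hδ2 hδP
  have hP1 : 1 ≤ P := by
    have := abs_nonneg t
    linarith
  have hNZ : NZ F := spx_nz hS (by rw [hn]; exact one_ne_zero)
  obtain ⟨H, xv, hFr⟩ := hFR m N hm hS.two_le
  have hc1 : Cof m (c1 D F) 1 := by
    have h1 := hCFA m N T D hS F lam hF.toHecA
    rw [hn] at h1
    exact h1
  have hc2 : Cof m (c2 D H xv F) 1 := by
    have h1 := hCFB m N T D hS H xv hFr F lam hF.toHecA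
    rw [hn] at h1
    exact h1
  obtain ⟨C1, hC1, hLam⟩ := hLMA m N T D hS F lam hF.toHecA hNZ
  obtain ⟨κ, hκd⟩ : ∃ κ : ℝ, κ = kp m N := ⟨_, rfl⟩
  have hκ : (1 : ℝ) ≤ κ := by
    have h1 : 1 ≤ N := by have := hS.two_le; omega
    rw [hκd]
    unfold kp
    exact Real.one_le_rpow (by exact_mod_cast h1) (by positivity)
  obtain ⟨hΦ, hΦ0, hΦW, hΦL⟩ := hP δ hδ0 hδ2
  obtain ⟨Φ, hΦd⟩ : ∃ Φ : Mat m → ℂ, Φ = dD^[m] (bi m χ δ) := ⟨_, rfl⟩
  rw [← hΦd] at hΦ hΦ0 hΦW hΦL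
  have hAd : Adm F (Pool.Agent.H34.GA.cf Φ) := Or.inr hΦ0
  have hW1 := (hΦW _ hc1).1
  have hW2 := (hΦW _ hc2).2
  obtain ⟨M, hMd⟩ : ∃ M : ℝ, M = CP * δ⁻¹ ^ AP := ⟨_, rfl⟩
  have hM : 0 ≤ M := by
    rw [hMd]
    positivity
  rw [← hMd] at hW1 hW2
  have hWc := hSMA m N T D hS F lam hF hNZ Φ hΦ hAd
  have hFE := hFEA m N T D hS H xv hFr F lam hF hNZ Φ hΦ hAd
  rw [← hκd] at hFE ⊢
  have hK1 := hTHK m K (uu Φ (c1 D F)) lam M (ε / 2) hm hKm hW1 ⟨C1, hLam⟩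
  have hK2 := hTHK m K (uu (Pool.Agent.H34.GA.cf Φ) (c2 D H xv F)) lam M (ε / 2) hm hKm hW2
    ⟨C1, hLam⟩
  obtain ⟨I, hI⟩ : ∃ I : ENNReal, I = ∫⁻ y in Set.Ioi (1 : ℝ), ENNReal.ofReal
      (‖DF m 1 lam y‖ * y ^ (-((m : ℝ) / 2) - 1) * wK m κ J y) := ⟨_, rfl⟩
  rw [← hI]
  have hSD := hY κ J lam hκ hJ
  rw [← hI] at hSD
  -- both halves
  have key : ∀ (ψ : ℝ → ℂ), WtB m ψ M (ε / 2) K → ∀ η : ℝ, |η| ≤ e0 →
      ∫⁻ r in Set.Ioc (0 : ℝ) (Real.sqrt κ), ENNReal.ofReal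
        (‖thA m ψ lam r‖ * r ^ (-((m : ℝ) ^ 2 / 2) - 1 + m * η)) ≤
      ENNReal.ofReal (CA * C0 * M * κ ^ (ε / 2)) * I := by
    intro ψ hψ η hη
    have h1 := hA κ ψ lam M C1 η hκ hM (hη.trans he02) hψ hLam
    refine (h1.trans (mul_le_mul' le_rfl hSD)).trans (le_of_eq ?_)
    rw [← mul_assoc, ← ENNReal.ofReal_mul (by positivity)]
    congr 2
    ring
  -- the value in the disc
  have hdisc : ∀ s : ℂ, ‖s - (1 / 2 + t * Complex.I)‖ ≤ e0 →
      ENNReal.ofReal ‖LmA m (uu Φ (c1 D F)) lam s‖ ≤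
        ENNReal.ofReal (2 * (CA * C0) * M * κ ^ (2 * (ε / 2))) * I := by
    intro s hs
    obtain ⟨η, hη⟩ : ∃ η : ℝ, η = s.re - 1 / 2 := ⟨_, rfl⟩
    have hηe : |η| ≤ e0 := by
      have h1 := (Complex.abs_re_le_norm (s - (1 / 2 + t * Complex.I))).trans hs
      have h2 : (s - (1 / 2 + t * Complex.I)).re = η := by
        rw [hη]
        simp
      rw [h2] at h1
      exact h1
    have hη' : |(-η)| ≤ e0 := by
      rw [abs_neg]
      exact hηe
    have h3 := hSPB m κ lam (uu Φ (c1 D F)) (uu (Pool.Agent.H34.GA.cf Φ) (c2 D H xv F)) hm hκ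
      hK1 hK2 hFE s η (by rw [hη]; ring)
    refine spx_two hκ (by positivity) hM rfl rfl ?_ h3 (key _ hW1 (-η) hη')
      (key _ hW2 η hηe) hε1.le
    have h4 : -(m * η) ≤ m * e0 := by
      have := mul_le_mul_of_nonneg_left (abs_le.1 hηe).1 hm0.le
      linarith
    have h5 : (m : ℝ) * e0 ≤ m * (ε / 2 / (2 * m)) := mul_le_mul_of_nonneg_left he02 hm0.le
    have h6 : (m : ℝ) * (ε / 2 / (2 * m)) = ε / 4 := by
      field_simp
      norm_num
    linarith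
  have e1 : 2 * (ε / 2) = ε := by ring
  rw [e1] at hdisc
  -- the case of an infinite integral
  by_cases hItop : I = ⊤
  · rw [hItop, ENNReal.mul_top]
    · exact le_top
    · rw [Ne, ENNReal.ofReal_eq_zero, not_le]
      have : 0 < κ ^ ε := Real.rpow_pos_of_pos (by linarith) _
      positivity
  obtain ⟨I', hI'⟩ : ∃ I' : ℝ, I' = I.toReal := ⟨_, rfl⟩
  have hI0 : 0 ≤ I' := by
    rw [hI']
    exact ENNReal.toReal_nonneg
  have hII : I = ENNReal.ofReal I' := by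
    rw [hI', ENNReal.ofReal_toReal hItop]
  have hκe : 0 < κ ^ ε := Real.rpow_pos_of_pos (by linarith) _
  -- the lower bound of the zeta integral on a circle
  have hs0 : δ * (1 + P + ‖(1 / 2 + t * Complex.I : ℂ)‖) ≤ cZ := by
    have h4 : ‖(1 / 2 + t * Complex.I : ℂ)‖ ≤ 1 / 2 + |t| := by
      refine (norm_add_le _ _).trans (le_of_eq ?_)
      rw [norm_mul, Complex.norm_I, mul_one, Complex.norm_real, Real.norm_eq_abs]
      norm_num
    have h6 : 1 + P + ‖(1 / 2 + t * Complex.I : ℂ)‖ ≤ 3 * P := by linarith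
    calc δ * (1 + P + ‖(1 / 2 + t * Complex.I : ℂ)‖) ≤ δ * (3 * P) :=
          mul_le_mul_of_nonneg_left h6 hδ0.le
      _ = 3 * (δ * P) := by ring
      _ ≤ cZ := by linarith
  obtain ⟨R, hR1, hR2, hR3⟩ := hZ (c1 D F) P (1 / 2 + t * Complex.I) δ hc1.meas
    (fun z hz => hc1.bd z hz) (by linarith)
    (fun w hw => hN N T D hS F lam hF.toHecA hn P hLip (by linarith) w hw) hδ0 hs0
  rw [← hΦd] at hR3
  have hRe : R ≤ e0 := by linarith
  have hR0 : 0 < R := by linarith [half_pos he0p]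
  -- the bound on the circle
  have hB : ∀ s : ℂ, ‖s - (1 / 2 + t * Complex.I)‖ = R →
      ‖L s‖ ≤ 2 * (CA * C0) * M * κ ^ ε * I' * (cZ * δ ^ AZ)⁻¹ := by
    intro s hs
    have h1 := hdisc s (by rw [hs]; exact hRe)
    rw [hII, ← ENNReal.ofReal_mul (by positivity),
      ENNReal.ofReal_le_ofReal_iff (by positivity)] at h1
    have h2 : LmA m (uu Φ (c1 D F)) lam s = L s * ZA Φ (c1 D F) s := by
      rw [hLW _ hWc s, (hMLZ m hm (c1 D F) 1 hc1 Φ hΦ.toTg).2.2 s]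
    rw [h2, norm_mul] at h1
    have h3 := hR3 s hs
    have h4 : 0 < cZ * δ ^ AZ := by positivity
    rw [← div_eq_mul_inv, le_div_iff₀ h4]
    exact (mul_le_mul_of_nonneg_left h3 (norm_nonneg _)).trans h1
  -- the maximum principle
  have hfin : ‖L (1 / 2 + t * Complex.I)‖ ≤
      2 * (CA * C0) * M * κ ^ ε * I' * (cZ * δ ^ AZ)⁻¹ := by
    have hU : Bornology.IsBounded (Metric.ball (1 / 2 + t * Complex.I : ℂ) R) :=
      Metric.isBounded_ball
    refine Complex.norm_le_of_forall_mem_frontier_norm_le hU hL.diffContOnCl ?_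
      (subset_closure (Metric.mem_ball_self hR0))
    intro s hs
    rw [frontier_ball _ hR0.ne', mem_sphere_iff_norm] at hs
    exact hB s hs
  rw [hII, ← ENNReal.ofReal_mul (by positivity)]
  refine ENNReal.ofReal_le_ofReal (hfin.trans (le_of_eq ?_))
  rw [hMd, pow_add, mul_inv, inv_pow]
  ring

end Pool.Agent.H16.GA
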