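import Pool.Agent.H34.GA.Defs

/-!
Board ga, version without any condition at infinity: lower bound of the zeta integral on a circle.
-/

namespace Pool.Agent.H34.GA

open MeasureTheory Pool.Agent.H34.GM Pool.Agent.H34.GZ Pool.Agent.H34.GU

/-- Cayley's operator against the powers of the trace -/
def T_DTR : Prop := ∀ m : ℕ, ∀ φ : Mat m → ℂ,
  ContDiff ℝ ((⊤ : ℕ∞) : WithTop ℕ∞) (fun z : V m => φ (mt z)) →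
  HasCompactSupport (fun z : V m => φ (mt z)) →
    ∫ x : V m, (dD^[m] φ) (mt x) * (((mt x).trace : ℝ) : ℂ) ^ (m ^ 2) =
      (-1) ^ (m ^ 2) * ((m ^ 2).factorial : ℂ) * ∫ x : V m, φ (mt x)

/-- a circle on which a monic polynomial is not small -/
def T_PIG : Prop := ∀ (n : ℕ) (ρ : Fin n → ℂ) (ε : ℝ), 1 ≤ n → 0 < ε → ∃ R : ℝ, ε ≤ R ∧ R ≤ 2 * ε ∧
  ∀ w : ℂ, ‖w‖ = R → (ε / (4 * n)) ^ n ≤ ∏ k, ‖w - ρ k‖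

/-- lower bound of the zeta integral of `dD^[m] (bi m χ δ)` on a circle, for a coefficient function
which is Lipschitz at `1` -/
def T_ZLC : Prop := ∀ (m : ℕ) (χ : ℝ → ℝ), 1 ≤ m → Prof χ → ∀ ε C0 : ℝ, 0 < ε → ε ≤ 1 → 1 ≤ C0 →
  ∃ (c : ℝ) (A : ℕ), 0 < c ∧ ∀ (f : Mat m → ℂ) (P : ℝ) (s0 : ℂ) (δ : ℝ),
  AEStronglyMeasurable (fun z : V m => f (mt z)) (hm m) →
  (∀ z : Mat m, z.det ≠ 0 → ‖f z‖ ≤ 1) → 0 ≤ P →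
  (∀ w : Mat m, C0 * sz (w - 1) ≤ 1 → ‖f w - 1‖ ≤ C0 * P * sz (w - 1)) →
  0 < δ → δ * (1 + P + ‖s0‖) ≤ c →
    ∃ R : ℝ, ε ≤ R ∧ R ≤ 2 * ε ∧ ∀ s : ℂ, ‖s - s0‖ = R →
      c * δ ^ A ≤ ‖ZA (dD^[m] (bi m χ δ)) f s‖

end Pool.Agent.H34.GA
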