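import Pool.Agent.H34.GA.Targets1

/-!
Board ga, version without any condition at infinity: the last two statements.
-/

namespace Pool.Agent.H34.GA

open MeasureTheory Pool.Agent.H34.GM Pool.Agent.H34.GZ Pool.Agent.H34.GU

/-- one value on the critical line, no condition at infinity -/
def T_SPC : Prop := ∀ m : ℕ, 1 ≤ m → ∀ ε J : ℝ, 0 < ε → 0 ≤ J → ∃ (C c : ℝ) (A : ℕ),
  0 < C ∧ 0 < c ∧ ∀ (N : ℕ) [NeZero N] (T : ℕ → Finset (ZM m)) (D : Set (V m)), SysZ m N T D →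
  ∀ (F : Mat m → VN m N → ℂ) (lam : ℕ → ℂ) (P : ℝ), CusB m N T F lam →
  nU D F = 1 → Lip D F P → ∀ L : ℂ → ℂ, Differentiable ℂ L →
  (∀ ψ : ℝ → ℂ, Wc m ψ lam → ∀ s : ℂ, LmA m ψ lam s = L s * MelA m ψ s) → ∀ t δ : ℝ,
  1 + |t| ≤ P → 0 < δ → δ ≤ 1 / 2 → δ * P ≤ c →
  ENNReal.ofReal ‖L (1 / 2 + t * Complex.I)‖ ≤
    ENNReal.ofReal (C * δ⁻¹ ^ A * kp m N ^ ε) * ∫⁻ y in Set.Ioi (1 : ℝ), ENNReal.ofReal
      (‖DF m 1 lam y‖ * y ^ (-((m : ℝ) / 2) - 1) * wK m (kp m N) J y)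

/-- the fourth moment over an orthonormal family of level `N`, no condition at infinity -/
def T_MOC : Prop := ∀ m : ℕ, 1 ≤ m → ∀ ε : ℝ, 0 < ε → ∃ C A : ℝ, 0 < C ∧ 0 < A ∧
  ∀ (N : ℕ) [NeZero N] (T : ℕ → Finset (ZM m)) (D : Set (V m)), SysZ m N T D →
  ∀ (ι : Type) [Fintype ι] [DecidableEq ι] (F : ι → Mat m → VN m N → ℂ) (lam : ι → ℕ → ℂ)
    (P : ι → ℝ),
    (∀ i, CusB m N T (F i) (lam i) ∧ Lip D (F i) (P i)) → Orthn D F →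
    ∃ L : ι → ℂ → ℂ, (∀ i, IsL m 1 (lam i) (L i)) ∧ ∀ t : ι → ℝ,
      (∀ i, 1 + |t i| ≤ P i) →
      ∑ i, (‖L i (1 / 2 + t i * Complex.I)‖ * P i ^ (-A)) ^ 4 ≤ C * (N : ℝ) ^ ((m : ℝ) + ε)

end Pool.Agent.H34.GA
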