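import Pool.Agent.H34.GU.Targets1

/-!
Board ga, first part: forms with an arbitrary archimedean component, large sieve side.
-/

namespace Pool.Agent.H34.GA

open MeasureTheory Pool.Agent.H34.GM Pool.Agent.H34.GZ Pool.Agent.H34.GU

/-! ### definitions -/

/-- bounded Hecke eigenforms on `GL_m(Z) \ (GL_m(R) × primitive vectors mod N)`, no condition at
infinity except the invariance under the positive scalars -/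
structure EigA (m N : ℕ) [NeZero N] (T : ℕ → Finset (ZM m)) (F : Mat m → VN m N → ℂ)
    (lam : ℕ → ℂ) : Prop where
  cont : ∀ x, ContinuousOn (fun g => F g x) {g | g.det ≠ 0}
  supp : ∀ g x, ¬ Pr x → F g x = 0
  auto : ∀ γ : ZM m, IsUnit γ → ∀ g x, g.det ≠ 0 → F (cR γ * g) (ac N γ x) = F g x
  scal : ∀ r : ℝ, 0 < r → ∀ g x, g.det ≠ 0 → F (r • g) x = F g x
  hecke : ∀ n : ℕ, 1 ≤ n → ∀ g x, g.det ≠ 0 →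
    ∑ α ∈ T n, F (cR α * g) (ac N α x) = (n : ℂ) ^ (((m : ℂ) - 1) / 2) * lam n * F g x
  bdd : ∃ B : ℝ, ∀ g x, g.det ≠ 0 → ‖F g x‖ ≤ B

/-- cusp forms, primitive at `N` -/
structure CuspA (m N : ℕ) [NeZero N] (T : ℕ → Finset (ZM m)) (F : Mat m → VN m N → ℂ)
    (lam : ℕ → ℂ) : Prop extends EigA m N T F lam where
  prim : ∀ v : VN m N, ¬ Pr v → ∀ g, g.det ≠ 0 → ∑ y, psn N (dt v y) * F g y = 0
  cusp : ∀ k : ℕ, 0 < k → k < m → ∀ g x, g.det ≠ 0 →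
    ∫ u in Set.Icc (0 : V m) 1, F ((1 + (N : ℝ) • nk k u) * g) x = 0

/-- the square of the norm -/
noncomputable def nA {m N : ℕ} [NeZero N] (D : Set (V m)) (F : Mat m → VN m N → ℂ) : ENNReal :=
  ∑ x, ∫⁻ z in D, ENNReal.ofReal (‖F (mt z) x‖ ^ 2) ∂(hm m)

/-- `P` is a Lipschitz constant of the right translates in `L²` -/
def Lip {m N : ℕ} [NeZero N] (D : Set (V m)) (F : Mat m → VN m N → ℂ) (P : ℝ) : Prop :=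
  0 ≤ P ∧ ∀ w : Mat m, sz (w - 1) ≤ 1 / (2 * m) →
    nA D (fun g x => F (g * w) x - F g x) ≤ ENNReal.ofReal ((P * sz (w - 1)) ^ 2) * nA D F

/-- continuous functions with compact support in `GL_m(R)` -/
structure TstG (m : ℕ) (k : Mat m → ℂ) : Prop where
  cont : Continuous k
  supp : ∃ c : ℝ, 0 < c ∧ ∀ z, k z ≠ 0 → sz z ≤ c ∧ c⁻¹ ≤ |z.det|

/-- smooth functions with compact support in `GL_m(R)` -/
structure TstT (m : ℕ) (Φ : Mat m → ℂ) : Prop extends TstG m Φ where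
  smooth : ContDiff ℝ ((⊤ : ℕ∞) : WithTop ℕ∞) (fun z : V m => Φ (mt z))
  comp : HasCompactSupport (fun z : V m => Φ (mt z))

/-- continuous decaying functions -/
structure DecG (m : ℕ) (Ψ : Mat m → ℂ) : Prop where
  cont : Continuous Ψ
  dec : ∀ N : ℕ, ∃ C : ℝ, 0 ≤ C ∧ ∀ z, ‖Ψ z‖ ≤ C * (1 + sz z) ^ (-(N : ℝ))

/-- the convolution operator with the kernel `k` on the elements of determinant `± 1` -/
noncomputable def R1 {m N : ℕ} (k : Mat m → ℂ) (F : Mat m → VN m N → ℂ) (g : Mat m)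
    (x : VN m N) : ℂ :=
  ∫ z in Shell m, k ((aN (mt z))⁻¹ • mt z) * F (g * (mt z)⁻¹) x ∂(hm m)

/-- the mass of `|k|` on the elements of determinant `± 1` -/
noncomputable def m1 {m : ℕ} (k : Mat m → ℂ) : ENNReal :=
  ∫⁻ z in Shell m, ENNReal.ofReal ‖k ((aN (mt z))⁻¹ • mt z)‖ ∂(hm m)

/-- the bump function at `1` -/
noncomputable def br (m : ℕ) (χ : ℝ → ℝ) (δ : ℝ) (z : Mat m) : ℝ :=
  χ ((∑ i, ∑ j, ((z - 1) i j) ^ 2) / δ ^ 2)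

/-- the same as a complex function -/
noncomputable def bp (m : ℕ) (χ : ℝ → ℝ) (δ : ℝ) (z : Mat m) : ℂ := (br m χ δ z : ℂ)

/-- its mass -/
noncomputable def IB (m : ℕ) (χ : ℝ → ℝ) (δ : ℝ) : ℝ :=
  ∫ z in Shell m, br m χ δ ((aN (mt z))⁻¹ • mt z) ∂(hm m)

/-! ### the operators `R1` -/

/-- the bump function -/
def T_BPA : Prop := ∀ (m : ℕ) (χ : ℝ → ℝ), 1 ≤ m → Prof χ → ∃ (c1 C : ℝ), 0 < c1 ∧ 0 < C ∧
  ∀ δ : ℝ, 0 < δ → δ ≤ 1 / 2 → TstT m (bp m χ δ) ∧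
    (∀ z, 0 ≤ br m χ δ z ∧ br m χ δ z ≤ 1) ∧
    (∀ z, br m χ δ z ≠ 0 → sz (z - 1) ≤ δ ∧ sz z ≤ 2 ∧ C⁻¹ ≤ |z.det| ∧
      sz (z⁻¹ - 1) ≤ C * δ ∧ sz z⁻¹ ≤ C) ∧
    c1 * δ ^ (m ^ 2) ≤ IB m χ δ ∧ m1 (bp m χ δ) = ENNReal.ofReal (IB m χ δ) ∧ IB m χ δ ≤ C

/-- change of variables in the convolution -/
def T_EZA : Prop := ∀ (m N : ℕ) [NeZero N] (T : ℕ → Finset (ZM m)) (F : Mat m → VN m N → ℂ)
  (lam : ℕ → ℂ), 1 ≤ m → EigA m N T F lam → ∀ Φ : Mat m → ℂ, TstG m Φ →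
  ∀ (ρ g : Mat m) (r : ℝ) (y : VN m N), ρ.det ≠ 0 → g.det ≠ 0 → 0 < r →
    IntegrableOn (fun z : V m => Φ (kk r (mt z) ρ g) * F (mt z) y) (Shell m) (hm m) ∧
    ∫ z in Shell m, Φ (kk r (mt z) ρ g) * F (mt z) y ∂(hm m) =
      R1 (fun z => Φ ((r⁻¹ * aN ρ) • z)) F (ρ * g) y

/-- the operators `R1` preserve the forms -/
def T_R1F : Prop := ∀ (m N : ℕ) [NeZero N] (T : ℕ → Finset (ZM m)) (F : Mat m → VN m N → ℂ)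
  (lam : ℕ → ℂ), 1 ≤ m → ∀ k : Mat m → ℂ, TstG m k →
  (EigA m N T F lam → EigA m N T (R1 k F) lam) ∧ (CuspA m N T F lam → CuspA m N T (R1 k F) lam)

/-- the norm of `R1` -/
def T_R1N : Prop := ∀ (m N : ℕ) [NeZero N] (T : ℕ → Finset (ZM m)) (D : Set (V m))
  (F : Mat m → VN m N → ℂ) (lam : ℕ → ℂ), 1 ≤ m → DomZ m D → EigA m N T F lam →
  ∀ k : Mat m → ℂ, Continuous k → nA D (R1 k F) ≤ m1 k ^ 2 * nA D F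

/-- `R1` of a bump function is close to a scalar -/
def T_R1L : Prop := ∀ (m : ℕ) (χ : ℝ → ℝ), 1 ≤ m → Prof χ → ∃ c C : ℝ, 0 < c ∧ 0 < C ∧
  ∀ (N : ℕ) [NeZero N] (T : ℕ → Finset (ZM m)) (D : Set (V m)) (F : Mat m → VN m N → ℂ)
    (lam : ℕ → ℂ) (P : ℝ), DomZ m D → EigA m N T F lam → Lip D F P →
  ∀ δ : ℝ, 0 < δ → δ ≤ c →
    nA D (fun g x => R1 (bp m χ δ) F g x - (IB m χ δ : ℂ) * F g x) ≤
      ENNReal.ofReal ((C * P * δ * IB m χ δ) ^ 2) * nA D F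

/-! ### the large sieve side -/

/-- forms and the operator `opCu` -/
def T_OCA : Prop := ∀ (m N : ℕ) [NeZero N] (T : ℕ → Finset (ZM m)) (D : Set (V m)),
  SysZ m N T D → ∀ (F : Mat m → VN m N → ℂ) (lam : ℕ → ℂ), EigA m N T F lam →
  ∀ Φ : Mat m → ℂ, TstG m Φ → ∀ (y : ℝ) (g : Mat m) (x : VN m N),
  g.det ≠ 0 → opCu N Φ y D F g x = DF m 1 lam y * R1 Φ F g x

/-- measurability of the kernels -/
def T_MKA : Prop := ∀ (m N : ℕ) (y : ℝ) (x w : VN m N), 1 ≤ m →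
  ∀ Φ : Mat m → ℂ, TstG m Φ →
    Measurable (fun p : V m × V m => Cu Φ y (mt p.1) x (mt p.2) w)

open Classical in
/-- the operator as an integral operator, and its majorant -/
def T_CKA : Prop := ∀ (m N : ℕ) [NeZero N], 1 ≤ m → 2 ≤ N → ∀ Φ : Mat m → ℂ, TstG m Φ →
  (∀ z, ‖Φ z‖ ≤ 1) → (∀ z, Φ z ≠ 0 → sz z ≤ 2) → ∀ y : ℝ,
    (∀ (g h : Mat m) (x w : VN m N),
      ENNReal.ofReal ‖Cu Φ y g x h w‖ ≤ Pu y g x h w) ∧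
    ∀ (F : VN m N → ℂ), (∀ x, ¬ Pr x → F x = 0) → ∀ (g h : Mat m) (x : VN m N),
      g.det ≠ 0 → h.det ≠ 0 →
      ∑' α : ZM m, (if y / 2 < (α.det.natAbs : ℝ) ∧ (α.det.natAbs : ℝ) ≤ y then
        Φ (kk (aN (cR α)) h (cR α) g) * F (ac N α x) else 0) =
      ∑ w : VN m N, Cu Φ y g x h w * F w

/-- the Hilbert-Schmidt bound for an orthonormal family, outer variable in a subset -/
def T_HSA : Prop := ∀ (m N : ℕ) [NeZero N] (T : ℕ → Finset (ZM m)) (D : Set (V m)),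
  SysZ m N T D → ∀ (ι : Type) [Fintype ι] [DecidableEq ι] (F : ι → Mat m → VN m N → ℂ)
    (lam : ι → ℕ → ℂ), (∀ i, EigA m N T (F i) (lam i)) →
  Orthn D F → ∀ Φ : Mat m → ℂ, TstG m Φ → (∀ z, ‖Φ z‖ ≤ 1) → (∀ z, Φ z ≠ 0 → sz z ≤ 2) →
  ∀ (y : ℝ) (S : Set (V m)), S ⊆ D → MeasurableSet S →
    ∑ i, ∑ x, ∫⁻ g in S, ENNReal.ofReal (‖opCu N Φ y D (opCu N Φ y D (F i)) (mt g) x‖ ^ 2)
      ∂(hm m) ≤ ∫⁻ g in S, Eu N D y (mt g) ∂(hm m)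

/-- `R1` of a cusp form is small where a gap is large -/
def T_OSA : Prop := ∀ (m : ℕ) (χ : ℝ → ℝ), 1 ≤ m → Prof χ → ∃ (C : ℝ) (A : ℕ), 1 ≤ C ∧
  ∀ (N : ℕ) [NeZero N] (T : ℕ → Finset (ZM m)) (F : Mat m → VN m N → ℂ) (lam : ℕ → ℂ), 2 ≤ N →
  CuspA m N T F lam → ∀ δ : ℝ, 0 < δ → δ ≤ 1 / 2 →
  ∀ (b n : Mat m) (a : Fin m → ℝ) (k : Mat m), Sgl b n a k →
  ∀ i j : Fin m, (i : ℕ) + 1 = j → (N : ℝ) * a i ≤ a j → ∀ x : VN m N,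
    ENNReal.ofReal ‖R1 (bp m χ δ) F b x‖ ≤ ENNReal.ofReal (C * δ⁻¹ ^ A * (N * a i / a j)) *
      ∫⁻ z in Zc m C, ENNReal.ofReal ‖F (b * (mt z)⁻¹) x‖ ∂(hm m)

/-- the mass of `R1 R1 F` in `DY` -/
def T_MSA : Prop := ∀ (m : ℕ) (χ : ℝ → ℝ), 1 ≤ m → Prof χ → ∃ (c C : ℝ) (A : ℕ), 0 < c ∧
  1 ≤ C ∧ ∀ (N : ℕ) [NeZero N] (T : ℕ → Finset (ZM m)) (D : Set (V m)), SysZ m N T D →
  ∀ (F : Mat m → VN m N → ℂ) (lam : ℕ → ℂ) (P : ℝ), CuspA m N T F lam → Lip D F P →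
  nA D F = 1 → ∀ δ : ℝ, 0 < δ → δ ≤ 1 / 2 → δ * (1 + P) ≤ c →
  ∀ Y : ℝ, C * N * δ⁻¹ ^ A ≤ Y →
    ENNReal.ofReal (IB m χ δ ^ 4 / 2) ≤ ∑ x, ∫⁻ z in DY D Y,
      ENNReal.ofReal (‖R1 (bp m χ δ) (R1 (bp m χ δ) F) (mt z) x‖ ^ 2) ∂(hm m)

/-- the fourth moment is bounded by the energy -/
def T_D4M : Prop := ∀ (m : ℕ) (χ : ℝ → ℝ), 1 ≤ m → Prof χ → ∃ (c C : ℝ) (A : ℕ), 0 < c ∧
  1 ≤ C ∧ ∀ (N : ℕ) [NeZero N] (T : ℕ → Finset (ZM m)) (D : Set (V m)), SysZ m N T D →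
  ∀ (ι : Type) [Fintype ι] [DecidableEq ι] (F : ι → Mat m → VN m N → ℂ)
    (lam : ι → ℕ → ℂ) (P : ι → ℝ), (∀ i, CuspA m N T (F i) (lam i) ∧ Lip D (F i) (P i)) →
  Orthn D F → ∀ δ : ℝ, 0 < δ → δ ≤ 1 / 2 → (∀ i, δ * (1 + P i) ≤ c) →
  ∀ y Y : ℝ, 1 ≤ y → C * N * δ⁻¹ ^ A ≤ Y →
    ENNReal.ofReal (∑ i, ‖DF m 1 (lam i) y‖ ^ 4) ≤ ENNReal.ofReal (C * δ⁻¹ ^ A) *
      ∫⁻ g in DY D Y, Eu N D y (mt g) ∂(hm m)

/-- the fourth moment of the sums of the eigenvalues -/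
def T_D4A : Prop := ∀ (m : ℕ) (χ : ℝ → ℝ), 1 ≤ m → Prof χ → ∀ ε : ℝ, 0 < ε →
  ∃ (c C : ℝ) (A K : ℕ), 0 < c ∧ 0 < C ∧
  ∀ (N : ℕ) [NeZero N] (T : ℕ → Finset (ZM m)) (D : Set (V m)), SysZ m N T D →
  ∀ (ι : Type) [Fintype ι] [DecidableEq ι] (F : ι → Mat m → VN m N → ℂ)
    (lam : ι → ℕ → ℂ) (P : ι → ℝ), (∀ i, CuspA m N T (F i) (lam i) ∧ Lip D (F i) (P i)) →
  Orthn D F → ∀ δ : ℝ, 0 < δ → δ ≤ 1 / 2 → (∀ i, δ * (1 + P i) ≤ c) →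
  ∀ y : ℝ, 1 ≤ y →
    ∑ i, ‖DF m 1 (lam i) y‖ ^ 4 ≤ (C * δ⁻¹ ^ A * (N : ℝ) ^ ((m : ℝ) + ε) *
      (1 + Real.log (N * δ⁻¹)) ^ K) * (1 + Real.log y) ^ K * y ^ (2 * m) *
        (1 + y ^ 2 / N) ^ m

/-- `R1` of a cusp form is integrable against the skewness -/
def T_TFA : Prop := ∀ (m N : ℕ) [NeZero N] (T : ℕ → Finset (ZM m)) (D : Set (V m)),
  SysZ m N T D → ∀ (F : Mat m → VN m N → ℂ) (lam : ℕ → ℂ), CuspA m N T F lam →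
  ∀ (χ : ℝ → ℝ) (δ : ℝ), Prof χ → 0 < δ → δ ≤ 1 / 2 →
    ∫⁻ z in D, Tht (mt z) * ∑ x : VN m N, ENNReal.ofReal ‖R1 (bp m χ δ) F (mt z) x‖ ∂(hm m) < ⊤

end Pool.Agent.H34.GA
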