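import Pool.Agent.H16.GA.PIG

/-!
Row ZLC of the board ga: the abstract inequality.
-/

set_option autoImplicit false

namespace Pool.Agent.H16.GA

open MeasureTheory Pool.Agent.H34.GM Pool.Agent.H34.GZ Pool.Agent.H34.GU Pool.Agent.H34.GA

/-- the Taylor expansion in the parameter of an integral of exponentials -/
theorem core {X : Type} [MeasurableSpace X] (μ : Measure X) (ψ : X → ℂ) (τ : X → ℝ) (M : ℝ)
    (n : ℕ) (ε : ℝ) (κ : ℂ) (hψ : Integrable ψ μ) (hτm : AEStronglyMeasurable τ μ) (hM : 1 ≤ M)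
    (hτ : ∀ x, ψ x ≠ 0 → |τ x| ≤ M) (hn : 1 ≤ n) (hε : 0 < ε) (hε1 : ε ≤ 1) (hκ : κ ≠ 0)
    (hκi : ∫ x, ψ x * ((τ x : ℝ) : ℂ) ^ n ∂μ = κ) :
    ∃ η : ℝ, 0 < η ∧ η ≤ 1 ∧ ∀ (E : X → ℂ) (h : X → ℝ) (δ : ℝ), AEStronglyMeasurable E μ →
      AEStronglyMeasurable h μ → 0 < δ → δ ≤ η → (∀ x, ψ x ≠ 0 → ‖E x - 1‖ ≤ η) →
      (∀ x, ψ x ≠ 0 → |h x - δ * τ x| ≤ η * δ) →
      ∃ R : ℝ, ε ≤ R ∧ R ≤ 2 * ε ∧ ∀ w : ℂ, ‖w‖ = R →
        η * δ ^ n ≤ ‖∫ x, ψ x * E x * Complex.exp (w * ((h x : ℝ) : ℂ)) ∂μ‖ := by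
  obtain ⟨K, hK⟩ : ∃ K : ℝ, K = ∫ x, ‖ψ x‖ ∂μ := ⟨_, rfl⟩
  have hK0 : 0 ≤ K := by
    rw [hK]
    exact integral_nonneg fun x => norm_nonneg _
  have hκ0 : 0 < ‖κ‖ := norm_pos_iff.2 hκ
  have hnR : (1 : ℝ) ≤ n := by exact_mod_cast hn
  -- constants
  obtain ⟨D, hD⟩ : ∃ D : ℝ, D = (M + 1) ^ n * (1 + n) := ⟨_, rfl⟩
  have hD0 : 0 < D := by rw [hD]; positivity
  obtain ⟨q, hq⟩ : ∃ q : ℝ, q = (ε / (4 * n)) ^ n := ⟨_, rfl⟩
  have hq0 : 0 < q := by rw [hq]; positivity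
  obtain ⟨C, hC⟩ : ∃ C : ℝ, C = 2 * (2 * (M + 1)) ^ (n + 1) * Real.exp (2 * (M + 1)) := ⟨_, rfl⟩
  have hC0 : 0 < C := by rw [hC]; positivity
  obtain ⟨a, ha⟩ : ∃ a : ℝ, a = ‖κ‖ / (4 * n.factorial) * q := ⟨_, rfl⟩
  have ha0 : 0 < a := by rw [ha]; positivity
  obtain ⟨η, hη⟩ : ∃ η : ℝ, η = min 1 (min (‖κ‖ / (2 * (K * D + 1))) (min (a / (K * C + 1)) a)) :=
    ⟨_, rfl⟩
  have hη0 : 0 < η := by
    rw [hη]
    have h1 : 0 < ‖κ‖ / (2 * (K * D + 1)) := by positivity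
    have h2 : 0 < a / (K * C + 1) := by positivity
    exact lt_min one_pos (lt_min h1 (lt_min h2 ha0))
  have hη1 : η ≤ 1 := by rw [hη]; exact min_le_left _ _
  have hη2 : η ≤ ‖κ‖ / (2 * (K * D + 1)) := by
    rw [hη]
    exact (min_le_right _ _).trans (min_le_left _ _)
  have hη3 : η ≤ a / (K * C + 1) := by
    rw [hη]
    exact (min_le_right _ _).trans ((min_le_right _ _).trans (min_le_left _ _))
  have hη4 : η ≤ a := by
    rw [hη]
    exact (min_le_right _ _).trans ((min_le_right _ _).trans (min_le_right _ _))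
  have hη2' : K * D * η ≤ ‖κ‖ / 2 := by
    have h1 : (K * D + 1) * η ≤ (K * D + 1) * (‖κ‖ / (2 * (K * D + 1))) :=
      mul_le_mul_of_nonneg_left hη2 (by positivity)
    have h2 : (K * D + 1) * (‖κ‖ / (2 * (K * D + 1))) = ‖κ‖ / 2 := by
      field_simp
    nlinarith
  have hη3' : K * C * η ≤ a := by
    have h1 : (K * C + 1) * η ≤ (K * C + 1) * (a / (K * C + 1)) :=
      mul_le_mul_of_nonneg_left hη3 (by positivity)
    have h2 : (K * C + 1) * (a / (K * C + 1)) = a := by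
      field_simp
    nlinarith
  refine ⟨η, hη0, hη1, ?_⟩
  intro E h δ hE hh hδ hδη hE1 hh1
  have hδ1 : δ ≤ 1 := hδη.trans hη1
  -- bounds on the support
  have bE : ∀ x, ψ x ≠ 0 → ‖E x‖ ≤ 2 := by
    intro x hx
    have h1 := hE1 x hx
    have h2 : E x = (E x - 1) + 1 := by ring
    rw [h2]
    refine (norm_add_le _ _).trans ?_
    rw [norm_one]
    linarith
  have bh : ∀ x, ψ x ≠ 0 → |h x| ≤ δ * (M + 1) := by
    intro x hx
    have h1 := hh1 x hx
    have h2 := hτ x hx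
    have h3 : h x = (h x - δ * τ x) + δ * τ x := by ring
    rw [h3]
    refine (abs_add_le _ _).trans ?_
    rw [abs_mul, abs_of_pos hδ]
    have h4 : η * δ ≤ δ := by nlinarith
    have h5 : δ * |τ x| ≤ δ * M := mul_le_mul_of_nonneg_left h2 hδ.le
    linarith
  have hhC : AEStronglyMeasurable (fun x => ((h x : ℝ) : ℂ)) μ :=
    Complex.continuous_ofReal.comp_aestronglyMeasurable hh
  -- a general integrability statement
  have hint : ∀ (g : X → ℂ) (B : ℝ), AEStronglyMeasurable g μ → (∀ x, ψ x ≠ 0 → ‖g x‖ ≤ B) →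
      Integrable (fun x => ψ x * g x) μ ∧ ‖∫ x, ψ x * g x ∂μ‖ ≤ K * B := by
    intro g B hg hB
    have h1 : Integrable (fun x => ‖ψ x‖ * B) μ := hψ.norm.mul_const B
    have h2 : ∀ x, ‖ψ x * g x‖ ≤ ‖ψ x‖ * B := by
      intro x
      rw [norm_mul]
      by_cases hx : ψ x = 0
      · rw [hx]
        simp
      · exact mul_le_mul_of_nonneg_left (hB x hx) (norm_nonneg _)
    refine ⟨h1.mono' (hψ.aestronglyMeasurable.mul hg) (Filter.Eventually.of_forall h2), ?_⟩
    refine (norm_integral_le_of_norm_le h1 (Filter.Eventually.of_forall h2)).trans (le_of_eq ?_)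
    rw [integral_mul_const, hK]
  -- the coefficients
  obtain ⟨c, hc⟩ : ∃ c : ℕ → ℂ, c = fun k => ∫ x, ψ x * (E x * (((h x : ℝ) : ℂ) ^ k /
      (k.factorial : ℂ))) ∂μ := ⟨_, rfl⟩
  have hcn : ‖κ‖ / (2 * n.factorial) * δ ^ n ≤ ‖c n‖ := by
    have h1 : (n.factorial : ℂ) * c n = ∫ x, ψ x * (E x * ((h x : ℝ) : ℂ) ^ n) ∂μ := by
      rw [hc, ← integral_const_mul]
      refine integral_congr_ae (Filter.Eventually.of_forall fun x => ?_)
      show (n.factorial : ℂ) * (ψ x * (E x * (((h x : ℝ) : ℂ) ^ n / (n.factorial : ℂ)))) =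
        ψ x * (E x * ((h x : ℝ) : ℂ) ^ n)
      have h0 : (n.factorial : ℂ) ≠ 0 := by exact_mod_cast n.factorial_ne_zero
      field_simp
    have h2 : (δ : ℂ) ^ n * κ = ∫ x, ψ x * (((δ * τ x : ℝ) : ℂ) ^ n) ∂μ := by
      rw [← hκi, ← integral_const_mul]
      refine integral_congr_ae (Filter.Eventually.of_forall fun x => ?_)
      show (δ : ℂ) ^ n * (ψ x * ((τ x : ℝ) : ℂ) ^ n) = ψ x * (((δ * τ x : ℝ) : ℂ) ^ n)
      push_cast
      ring
    have i1 := hint (fun x => E x * ((h x : ℝ) : ℂ) ^ n) (2 * (δ * (M + 1)) ^ n)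
      (hE.mul (hhC.pow n)) (by
        intro x hx
        rw [norm_mul, norm_pow, Complex.norm_real, Real.norm_eq_abs]
        exact mul_le_mul (bE x hx) (pow_le_pow_left₀ (abs_nonneg _) (bh x hx) n)
          (by positivity) (by norm_num))
    have hτC : AEStronglyMeasurable (fun x => (((δ * τ x : ℝ) : ℂ) ^ n)) μ :=
      (Complex.continuous_ofReal.comp_aestronglyMeasurable (hτm.const_mul δ)).pow n
    have i2 := hint (fun x => (((δ * τ x : ℝ) : ℂ) ^ n)) ((δ * (M + 1)) ^ n) hτC (by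
        intro x hx
        rw [norm_pow, Complex.norm_real, Real.norm_eq_abs, abs_mul, abs_of_pos hδ]
        refine pow_le_pow_left₀ (by positivity) (mul_le_mul_of_nonneg_left ?_ hδ.le) n
        linarith [hτ x hx])
    have i3 := hint (fun x => E x * ((h x : ℝ) : ℂ) ^ n - (((δ * τ x : ℝ) : ℂ) ^ n))
      (D * η * δ ^ n) ((hE.mul (hhC.pow n)).sub hτC) (by
        intro x hx
        have e1 : E x * ((h x : ℝ) : ℂ) ^ n - (((δ * τ x : ℝ) : ℂ) ^ n) =
            (E x - 1) * ((h x : ℝ) : ℂ) ^ n + ((h x ^ n - (δ * τ x) ^ n : ℝ) : ℂ) := by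
          push_cast
          ring
        rw [e1]
        refine (norm_add_le _ _).trans ?_
        rw [norm_mul, norm_pow, Complex.norm_real, Complex.norm_real, Real.norm_eq_abs,
          Real.norm_eq_abs]
        have e2 : ‖E x - 1‖ * |h x| ^ n ≤ η * (δ * (M + 1)) ^ n :=
          mul_le_mul (hE1 x hx) (pow_le_pow_left₀ (abs_nonneg _) (bh x hx) n)
            (by positivity) hη0.le
        have e3 := abs_pow_sub_pow_le (h x) (δ * τ x) n
        have e4 : max |h x| |δ * τ x| ≤ δ * (M + 1) := by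
          refine max_le (bh x hx) ?_
          rw [abs_mul, abs_of_pos hδ]
          refine mul_le_mul_of_nonneg_left ?_ hδ.le
          linarith [hτ x hx]
        have e5 : max |h x| |δ * τ x| ^ (n - 1) ≤ (δ * (M + 1)) ^ (n - 1) :=
          pow_le_pow_left₀ (le_max_of_le_left (abs_nonneg _)) e4 _
        have e6 : |h x - δ * τ x| * n * max |h x| |δ * τ x| ^ (n - 1) ≤
            η * δ * n * (δ * (M + 1)) ^ (n - 1) := by
          refine mul_le_mul ?_ e5 (by positivity) (by positivity)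
          exact mul_le_mul_of_nonneg_right (hh1 x hx) (by positivity)
        have e7 : (M + 1) ^ (n - 1) ≤ (M + 1) ^ n := pow_le_pow_right₀ (by linarith) (by omega)
        have e8 : δ ^ n = δ * δ ^ (n - 1) := by
          rw [← pow_succ']
          congr 1
          omega
        have e9 : η * δ * n * (δ * (M + 1)) ^ (n - 1) ≤ η * n * δ ^ n * (M + 1) ^ n := by
          rw [mul_pow, e8]
          have : η * δ * n * (δ ^ (n - 1) * (M + 1) ^ (n - 1)) =
              η * n * (δ * δ ^ (n - 1)) * (M + 1) ^ (n - 1) := by ring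
          rw [this]
          exact mul_le_mul_of_nonneg_left e7 (by positivity)
        have e10 : η * (δ * (M + 1)) ^ n + η * n * δ ^ n * (M + 1) ^ n = D * η * δ ^ n := by
          rw [hD, mul_pow]
          ring
        rw [← e10]
        exact add_le_add e2 (e3.trans (e6.trans e9)))
    have h3 : (n.factorial : ℂ) * c n - (δ : ℂ) ^ n * κ = ∫ x, ψ x * (E x * ((h x : ℝ) : ℂ) ^ n -
        (((δ * τ x : ℝ) : ℂ) ^ n)) ∂μ := by
      rw [h1, h2, ← integral_sub i1.1 i2.1]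
      refine integral_congr_ae (Filter.Eventually.of_forall fun x => ?_)
      show ψ x * (E x * ((h x : ℝ) : ℂ) ^ n) - ψ x * (((δ * τ x : ℝ) : ℂ) ^ n) =
        ψ x * (E x * ((h x : ℝ) : ℂ) ^ n - (((δ * τ x : ℝ) : ℂ) ^ n))
      ring
    have h4 : ‖(δ : ℂ) ^ n * κ‖ ≤ ‖(n.factorial : ℂ) * c n‖ + K * (D * η * δ ^ n) := by
      have h5 : (δ : ℂ) ^ n * κ = (n.factorial : ℂ) * c n -
        ((n.factorial : ℂ) * c n - (δ : ℂ) ^ n * κ) := by ring
      calc ‖(δ : ℂ) ^ n * κ‖ = ‖(n.factorial : ℂ) * c n -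
          ((n.factorial : ℂ) * c n - (δ : ℂ) ^ n * κ)‖ := by rw [← h5]
        _ ≤ ‖(n.factorial : ℂ) * c n‖ + ‖(n.factorial : ℂ) * c n - (δ : ℂ) ^ n * κ‖ :=
          norm_sub_le _ _
        _ ≤ _ := by
          rw [h3]
          exact add_le_add le_rfl i3.2
    rw [norm_mul, norm_mul, norm_pow, Complex.norm_real, Real.norm_eq_abs, abs_of_pos hδ,
      Complex.norm_natCast] at h4
    have h5 : K * (D * η * δ ^ n) ≤ ‖κ‖ / 2 * δ ^ n := by
      have : K * (D * η * δ ^ n) = K * D * η * δ ^ n := by ring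
      rw [this]
      exact mul_le_mul_of_nonneg_right hη2' (by positivity)
    have h6 : δ ^ n * (‖κ‖ / 2) ≤ n.factorial * ‖c n‖ := by linarith
    have h7 : (0 : ℝ) < n.factorial := by exact_mod_cast n.factorial_pos
    have h8 : ‖κ‖ / (2 * n.factorial) * δ ^ n = (δ ^ n * (‖κ‖ / 2)) / n.factorial := by
      field_simp
    rw [h8, div_le_iff₀ h7]
    linarith
  have hcn0 : c n ≠ 0 := by
    intro h0
    rw [h0, norm_zero] at hcn
    have : 0 < ‖κ‖ / (2 * n.factorial) * δ ^ n := by positivity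
    linarith
  obtain ⟨R, hR1, hR2, hR3⟩ := pol_low n c ε hn hε hcn0
  refine ⟨R, hR1, hR2, fun w hw => ?_⟩
  have hw2 : ‖w‖ ≤ 2 := by rw [hw]; linarith
  have h1 := hR3 w hw
  rw [← hq] at h1
  have h2 : ∑ k ∈ Finset.range (n + 1), c k * w ^ k =
      ∫ x, ψ x * (E x * ∑ k ∈ Finset.range (n + 1), (w * ((h x : ℝ) : ℂ)) ^ k /
        (k.factorial : ℂ)) ∂μ := by
    have j1 : ∀ k, Integrable (fun x => ψ x * (E x * (((h x : ℝ) : ℂ) ^ k /
        (k.factorial : ℂ)))) μ := by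
      intro k
      refine (hint (fun x => E x * (((h x : ℝ) : ℂ) ^ k / (k.factorial : ℂ)))
        (2 * ((δ * (M + 1)) ^ k)) ?_ ?_).1
      · refine hE.mul ?_
        have := (hhC.pow k).mul_const ((k.factorial : ℂ)⁻¹)
        simpa [div_eq_mul_inv] using this
      · intro x hx
        rw [norm_mul, norm_div, norm_pow, Complex.norm_real, Real.norm_eq_abs,
          Complex.norm_natCast]
        refine mul_le_mul (bE x hx) ?_ (by positivity) (by norm_num)
        have h7 : (1 : ℝ) ≤ k.factorial := by exact_mod_cast k.factorial_pos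
        refine (div_le_self (by positivity) h7).trans ?_
        exact pow_le_pow_left₀ (abs_nonneg _) (bh x hx) k
    have j2 : ∀ k, c k * w ^ k = ∫ x, ψ x * (E x * (((h x : ℝ) : ℂ) ^ k /
        (k.factorial : ℂ))) * w ^ k ∂μ := by
      intro k
      rw [hc, integral_mul_const]
    simp only [j2]
    rw [← integral_finsetSum]
    · refine integral_congr_ae (Filter.Eventually.of_forall fun x => ?_)
      show ∑ k ∈ Finset.range (n + 1), ψ x * (E x * (((h x : ℝ) : ℂ) ^ k /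
        (k.factorial : ℂ))) * w ^ k = ψ x * (E x * ∑ k ∈ Finset.range (n + 1),
          (w * ((h x : ℝ) : ℂ)) ^ k / (k.factorial : ℂ))
      rw [Finset.mul_sum, Finset.mul_sum]
      refine Finset.sum_congr rfl fun k _ => ?_
      rw [mul_pow]
      ring
    · intro k _
      exact (j1 k).mul_const _
  have hew : AEStronglyMeasurable (fun x => Complex.exp (w * ((h x : ℝ) : ℂ))) μ :=
    Complex.continuous_exp.comp_aestronglyMeasurable (hhC.const_mul w)
  have hsw : AEStronglyMeasurable (fun x => ∑ k ∈ Finset.range (n + 1),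
      (w * ((h x : ℝ) : ℂ)) ^ k / (k.factorial : ℂ)) μ := by
    have hcont : Continuous (fun y : ℂ => ∑ k ∈ Finset.range (n + 1), (w * y) ^ k /
        (k.factorial : ℂ)) := by fun_prop
    exact hcont.comp_aestronglyMeasurable hhC
  have bexp : ∀ x, ψ x ≠ 0 → ‖Complex.exp (w * ((h x : ℝ) : ℂ)) -
      ∑ k ∈ Finset.range (n + 1), (w * ((h x : ℝ) : ℂ)) ^ k / (k.factorial : ℂ)‖ ≤
      (2 * (M + 1)) ^ (n + 1) * Real.exp (2 * (M + 1)) * δ ^ (n + 1) := by
    intro x hx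
    refine (Complex.norm_exp_sub_sum_le_norm_mul_exp _ _).trans ?_
    have k1 : ‖w * ((h x : ℝ) : ℂ)‖ ≤ 2 * (M + 1) * δ := by
      rw [norm_mul, Complex.norm_real, Real.norm_eq_abs]
      have := mul_le_mul hw2 (bh x hx) (abs_nonneg _) (by norm_num)
      linarith
    have k2 : Real.exp ‖w * ((h x : ℝ) : ℂ)‖ ≤ Real.exp (2 * (M + 1)) := by
      refine Real.exp_le_exp.2 (k1.trans ?_)
      nlinarith
    have k3 : ‖w * ((h x : ℝ) : ℂ)‖ ^ (n + 1) ≤ (2 * (M + 1) * δ) ^ (n + 1) :=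
      pow_le_pow_left₀ (norm_nonneg _) k1 _
    have k4 : (2 * (M + 1)) ^ (n + 1) * Real.exp (2 * (M + 1)) * δ ^ (n + 1) =
        (2 * (M + 1) * δ) ^ (n + 1) * Real.exp (2 * (M + 1)) := by
      have k5 : (2 * (M + 1) * δ) ^ (n + 1) = (2 * (M + 1)) ^ (n + 1) * δ ^ (n + 1) :=
        mul_pow _ _ _
      rw [k5, mul_right_comm]
    rw [k4]
    exact mul_le_mul k3 k2 (Real.exp_pos _).le (by positivity)
  have bsum : ∀ x, ψ x ≠ 0 → ‖∑ k ∈ Finset.range (n + 1), (w * ((h x : ℝ) : ℂ)) ^ k /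
      (k.factorial : ℂ)‖ ≤ (n + 1) * (2 * (M + 1)) ^ (n + 1) := by
    intro x hx
    refine (norm_sum_le _ _).trans ?_
    have k0 : ∀ k ∈ Finset.range (n + 1), ‖(w * ((h x : ℝ) : ℂ)) ^ k / (k.factorial : ℂ)‖ ≤
        (2 * (M + 1)) ^ (n + 1) := by
      intro k hk
      rw [norm_div, norm_pow, Complex.norm_natCast]
      have h7 : (1 : ℝ) ≤ k.factorial := by exact_mod_cast k.factorial_pos
      refine (div_le_self (by positivity) h7).trans ?_
      have k1 : ‖w * ((h x : ℝ) : ℂ)‖ ≤ 2 * (M + 1) := by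
        rw [norm_mul, Complex.norm_real, Real.norm_eq_abs]
        have := mul_le_mul hw2 (bh x hx) (abs_nonneg _) (by norm_num)
        nlinarith
      refine (pow_le_pow_left₀ (norm_nonneg _) k1 k).trans ?_
      refine pow_le_pow_right₀ (by linarith) ?_
      have := Finset.mem_range.1 hk
      omega
    refine (Finset.sum_le_sum k0).trans ?_
    rw [Finset.sum_const, Finset.card_range, nsmul_eq_mul]
    push_cast
    exact le_rfl
  have i5 := hint (fun x => E x * ∑ k ∈ Finset.range (n + 1), (w * ((h x : ℝ) : ℂ)) ^ k /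
      (k.factorial : ℂ)) (2 * ((n + 1) * (2 * (M + 1)) ^ (n + 1))) (hE.mul hsw) (by
    intro x hx
    rw [norm_mul]
    exact mul_le_mul (bE x hx) (bsum x hx) (norm_nonneg _) (by norm_num))
  have i6 := hint (fun x => E x * (Complex.exp (w * ((h x : ℝ) : ℂ)) -
      ∑ k ∈ Finset.range (n + 1), (w * ((h x : ℝ) : ℂ)) ^ k / (k.factorial : ℂ)))
      (C * δ ^ (n + 1)) (hE.mul (hew.sub hsw)) (by
    intro x hx
    rw [norm_mul]
    have := mul_le_mul (bE x hx) (bexp x hx) (norm_nonneg _) (by norm_num)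
    refine this.trans (le_of_eq ?_)
    rw [hC]
    ring)
  have h3 : ∫ x, ψ x * E x * Complex.exp (w * ((h x : ℝ) : ℂ)) ∂μ =
      (∫ x, ψ x * (E x * ∑ k ∈ Finset.range (n + 1), (w * ((h x : ℝ) : ℂ)) ^ k /
        (k.factorial : ℂ)) ∂μ) + ∫ x, ψ x * (E x * (Complex.exp (w * ((h x : ℝ) : ℂ)) -
      ∑ k ∈ Finset.range (n + 1), (w * ((h x : ℝ) : ℂ)) ^ k / (k.factorial : ℂ))) ∂μ := by
    rw [← integral_add i5.1 i6.1]
    refine integral_congr_ae (Filter.Eventually.of_forall fun x => ?_)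
    show ψ x * E x * Complex.exp (w * ((h x : ℝ) : ℂ)) = ψ x * (E x *
      ∑ k ∈ Finset.range (n + 1), (w * ((h x : ℝ) : ℂ)) ^ k / (k.factorial : ℂ)) +
      ψ x * (E x * (Complex.exp (w * ((h x : ℝ) : ℂ)) -
      ∑ k ∈ Finset.range (n + 1), (w * ((h x : ℝ) : ℂ)) ^ k / (k.factorial : ℂ)))
    ring
  rw [h2] at h1
  have h4 : ‖∫ x, ψ x * (E x * ∑ k ∈ Finset.range (n + 1), (w * ((h x : ℝ) : ℂ)) ^ k /
        (k.factorial : ℂ)) ∂μ‖ ≤ ‖∫ x, ψ x * E x * Complex.exp (w * ((h x : ℝ) : ℂ)) ∂μ‖ +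
        K * (C * δ ^ (n + 1)) := by
    have h5 := eq_sub_of_add_eq h3.symm
    rw [h5]
    exact (norm_sub_le _ _).trans (add_le_add le_rfl i6.2)
  have h5 : K * (C * δ ^ (n + 1)) ≤ a * δ ^ n := by
    have : K * (C * δ ^ (n + 1)) = K * C * δ * δ ^ n := by
      rw [pow_succ]
      ring
    rw [this]
    refine mul_le_mul_of_nonneg_right ?_ (by positivity)
    exact (mul_le_mul_of_nonneg_left hδη (by positivity)).trans hη3'
  have h6 : 2 * a * δ ^ n ≤ ‖c n‖ * q := by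
    have h7 := mul_le_mul_of_nonneg_right hcn hq0.le
    refine le_trans (le_of_eq ?_) h7
    rw [ha]
    field_simp
    norm_num
  have h7 : η * δ ^ n ≤ a * δ ^ n := mul_le_mul_of_nonneg_right hη4 (by positivity)
  linarith

end Pool.Agent.H16.GA
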